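import Pool.Agent.Helper76.GT.St
import Pool.Agent.Helper76.WM.Contract
import Pool.Agent.Helper13.GT.M_CAC
import Pool.Agent.Helper8.GT.M_COV
import Pool.Agent.Helper16.GT.M_TRC
import Pool.Agent.Helper74.GT.M_GRA
import Pool.Agent.Helper9.GT.M_KEY
import Pool.Agent.Helper57.GT.M_SCL
import Pool.Agent.Helper51.GT.M_HAA
import Pool.Agent.Helper2.GT.M_HAB
import Pool.Agent.Helper93.GT.M_ISO
import Pool.Agent.Helper6.GT.M_REP
import Pool.Agent.Helper2.GT.M_SEQ
import Pool.Agent.Helper36.GT.M_GRO
import Pool.Agent.Helper48.GT.M_FIN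

/-!
# MP_b731ff_al: assembly of project GT
-/

set_option autoImplicit false

namespace Pool.Agent.Helper76.GT

open Subgroup (closure centralizer)
open Filter
open scoped Pointwise
open Pool.Agent.Helper76.WM (PolyOrb orbit_lemma conj_pairs)

universe u v

/-- the torsion case of Gromov's theorem for groups with `FF` and `FC` -/
theorem fin_all (H : Type u) [Group H] [DecidableEq H] (hPOI : POI H) (hDET : DET) (hWHI : WHI)
    (hFDM : GRA H → KEY H → SCL → FDM H) : FIN H := by
  have hTRC := Pool.Agent.Helper16.GT.pTRC H hPOI (Pool.Agent.Helper13.GT.pCAC H)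
    (Pool.Agent.Helper8.GT.pCOV H)
  have hGRA := Pool.Agent.Helper74.GT.pGRA H
  have hKEY := Pool.Agent.Helper9.GT.pKEY H hTRC hGRA hDET hWHI
  have hFDM := hFDM hGRA hKEY Pool.Agent.Helper57.GT.pSCL
  exact Pool.Agent.Helper48.GT.pFIN H hFDM (Pool.Agent.Helper51.GT.pHAA H)
    (Pool.Agent.Helper2.GT.pHAB H)
    (Pool.Agent.Helper6.GT.pREP H (Pool.Agent.Helper93.GT.pISO H))
    (Pool.Agent.Helper36.GT.pGRO H (Pool.Agent.Helper2.GT.pSEQ H))

/-- the group version -/
theorem false_of_polyOrb {H : Type u} {X : Type v} [Group H] [DecidableEq H] [MulAction H X]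
    [Infinite H] [Group.FG H] (hFIN : FIN H) (hFF : FF H) (htor : ∀ g : H, IsOfFinOrder g)
    (hc : FC H) (hfaith : ∀ g : H, (∀ x : X, g • x = x) → g = 1) (horb : PolyOrb H X) : False := by
  classical
  obtain ⟨T, hT⟩ := (Group.fg_def (G := H)).1 inferInstance
  set S : Finset H := insert 1 (T ∪ T⁻¹) with hS
  have h1 : (1 : H) ∈ S := Finset.mem_insert_self _ _
  have hinv : ∀ s ∈ S, s⁻¹ ∈ S := by
    intro s hs
    rw [hS] at hs ⊢
    simp only [Finset.mem_insert, Finset.mem_union, Finset.mem_inv', inv_inv, inv_eq_one] at hs ⊢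
    tauto
  have hgen : closure (S : Set H) = ⊤ := by
    rw [eq_top_iff, ← hT]
    refine Subgroup.closure_mono ?_
    intro t ht
    rw [hS, Finset.coe_insert, Finset.coe_union]
    exact Set.mem_insert_of_mem _ (Or.inl ht)
  obtain ⟨K, hK⟩ := orbit_lemma (X := X) hFF hfaith
  obtain ⟨C, d, hfr⟩ := horb (S : Set H) S.finite_toSet
  refine hFIN S ⟨h1, hinv, hgen⟩ inferInstance hFF hc htor ⟨K * C, d, ?_⟩
  refine hfr.mono ?_
  intro n hn
  obtain ⟨x, hx⟩ := hK (S ^ n)
  have h2 := hn x
  have h3 : ((fun g : H => g • x) '' ((S : Set H) ^ n)).ncard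
      = ((S ^ n).image (fun g => g • x)).card := by
    rw [← Set.ncard_coe_finset, Finset.coe_image, Finset.coe_pow]
  rw [h3] at h2
  calc (S ^ n).card ≤ K * ((S ^ n).image (fun g => g • x)).card := hx
    _ ≤ K * (C * n ^ d) := Nat.mul_le_mul_left _ h2
    _ = K * C * n ^ d := by ring

/-- **main theorem** -/
theorem finite_of_polyOrb (G : Type u) (X : Type v) [Group G] [MulAction G X]
    (hFIN : ∀ (H : Type u) [Group H] [DecidableEq H], FIN H)
    (htor : ∀ g : G, IsOfFinOrder g)
    (hRF : ∀ g : G, g ≠ 1 → ∃ N : Subgroup G, N.Normal ∧ N.index ≠ 0 ∧ g ∉ N)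
    (hmin : ∀ H : ℕ → Subgroup G, Antitone H →
        ∃ n : ℕ, ∀ m : ℕ, n ≤ m → ((H (m + 1)).subgroupOf (H m)).index ≠ 0)
    (hfaith : ∀ g : G, (∀ x : X, g • x = x) → g = 1) (horb : PolyOrb G X) : Finite G := by
  classical
  by_contra hcon
  rw [not_finite_iff_infinite] at hcon
  obtain ⟨p, x, g, H, -, -, -, hH, hHinf, hHFF, -, hHc, -⟩ :=
    conj_pairs G hcon htor hRF hmin
  have hfg : Group.FG H := by
    rw [Group.fg_iff_subgroup_fg, hH]
    exact ⟨{x, g⁻¹ * x * g}, by simp⟩
  have htor' : ∀ g : H, IsOfFinOrder g := fun g =>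
    (Subgroup.subtype_injective H).isOfFinOrder_iff.1 (htor g)
  have hFF : FF H := by
    intro K
    have h1 := hHFF (K.map H.subtype) (Subgroup.map_subtype_le K)
    rcases h1 with h1 | h1
    · left
      exact Finite.of_injective _
        (K.equivMapOfInjective H.subtype H.subtype_injective).injective
    · right
      have h3 : (K.map H.subtype).subgroupOf H = K :=
        Subgroup.comap_map_eq_self_of_injective H.subtype_injective K
      rw [Subgroup.relIndex, h3] at h1
      exact h1
  have hc : FC H := by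
    intro x hx
    have hf := hHc x x.2 (fun h => hx (Subtype.ext h))
    let f : centralizer ({x} : Set H) → (centralizer ({(x : G)} : Set G) ⊓ H : Subgroup G) :=
      fun y => ⟨(y : H), Subgroup.mem_inf.2 ⟨by
        rw [Subgroup.mem_centralizer_iff]
        intro z hz
        rw [Set.mem_singleton_iff.1 hz]
        exact congrArg Subtype.val (Subgroup.mem_centralizer_iff.1 y.2 x rfl), (y : H).2⟩⟩
    exact Finite.of_injective f (fun a b hab => by
      have h1 := congrArg Subtype.val hab
      exact Subtype.ext (Subtype.ext h1))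
  refine false_of_polyOrb (H := H) (X := X) (hFIN H) hFF htor' hc ?_ ?_
  · intro g hg
    exact Subtype.ext (hfaith g (fun x => hg x))
  · intro S hS
    obtain ⟨C, d, hfr⟩ := horb (H.subtype '' S) (hS.image _)
    refine ⟨C, d, hfr.mono (fun n hn x => ?_)⟩
    have h1 := hn x
    have h2 : ((fun g : H => g • x) '' (S ^ n))
        = ((fun g : G => g • x) '' ((H.subtype '' S) ^ n)) := by
      rw [← Set.image_pow, Set.image_image]
      rfl
    rw [h2]
    exact h1

end Pool.Agent.Helper76.GT
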