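import Mathlib

/-!
# MP_b731ff_al, project GT: the torsion case of Gromov's theorem (definitions)
-/

set_option autoImplicit false

namespace Pool.Agent.Helper76.GT

open scoped Pointwise
open Filter

/-- `S` is a finite symmetric generating set which contains `1`. -/
structure Gen {H : Type*} [Group H] (S : Finset H) : Prop where
  one : (1 : H) ∈ S
  inv : ∀ s ∈ S, s⁻¹ ∈ S
  gen : Subgroup.closure (S : Set H) = ⊤

/-- the squared gradient in the right Cayley graph -/
def grad2 {H : Type*} [Group H] (S : Finset H) (f : H → ℝ) (x : H) : ℝ :=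
  ∑ s ∈ S, (f (x * s) - f x) ^ 2

/-- harmonic functions on the right Cayley graph -/
def Harm {H : Type*} [Group H] (S : Finset H) (f : H → ℝ) : Prop :=
  ∀ x : H, ∑ s ∈ S, (f (x * s) - f x) = 0

/-- Lipschitz functions on the right Cayley graph -/
def Lip {H : Type*} [Group H] (S : Finset H) (f : H → ℝ) : Prop :=
  ∃ C : ℝ, ∀ x : H, ∀ s ∈ S, |f (x * s) - f x| ≤ C

/-- polynomial growth along a sequence -/
def PolyGrowth {H : Type*} [Group H] [DecidableEq H] (S : Finset H) : Prop :=
  ∃ C d : ℕ, ∃ᶠ n : ℕ in atTop, (S ^ n).card ≤ C * n ^ d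

/-- the Gram matrix of the functions `f i` on the ball `S ^ R` -/
def gram {H : Type*} [Group H] [DecidableEq H] (S : Finset H) {N : ℕ} (f : Fin N → H → ℝ)
    (R : ℕ) : Matrix (Fin N) (Fin N) ℝ :=
  fun i j => ∑ x ∈ S ^ R, f i x * f j x

/-- the squared `l^2` norm (used only for functions with finite support) -/
noncomputable def nrm2 {H : Type*} (u : H → ℝ) : ℝ := ∑' x, u x ^ 2

/-- the energy with respect to left translations -/
noncomputable def en {H : Type*} [Group H] (S : Finset H) (u : H → ℝ) : ℝ :=
  ∑ s ∈ S, nrm2 (fun x => u x - u (s⁻¹ * x))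

/-- the Laplacian with respect to left translations -/
def lap {H : Type*} [Group H] (S : Finset H) (u : H → ℝ) : H → ℝ :=
  fun x => ∑ s ∈ S, (u x - u (s⁻¹ * x))

/-- all subgroups are finite or of finite index -/
def FF (H : Type*) [Group H] : Prop := ∀ K : Subgroup H, Finite K ∨ K.index ≠ 0

/-- the centralizers of the nontrivial elements are finite -/
def FC (H : Type*) [Group H] : Prop :=
  ∀ x : H, x ≠ 1 → Finite (Subgroup.centralizer ({x} : Set H))

end Pool.Agent.Helper76.GT
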