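import Pool.Agent.Helper76.GT.St
namespace Pool.Agent.Helper76.GT
set_option autoImplicit false
theorem pDET : DET := by
  intro N M hN hM
  have hNpos : (0 : ℝ) < N := by exact_mod_cast hN
  have h1 : M.det = ∏ i, hM.isHermitian.eigenvalues i := by
    have := hM.isHermitian.det_eq_prod_eigenvalues
    simpa using this
  have h2 : M.trace = ∑ i, hM.isHermitian.eigenvalues i := by
    have := hM.isHermitian.trace_eq_sum_eigenvalues
    simpa using this
  have h3 : ∀ i, 0 ≤ hM.isHermitian.eigenvalues i := fun i => hM.eigenvalues_nonneg i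
  have h4 := Real.geom_mean_le_arith_mean_weighted Finset.univ (fun _ : Fin N => (1 / N : ℝ))
    hM.isHermitian.eigenvalues (fun _ _ => by positivity) (by simp; field_simp) (fun i _ => h3 i)
  rw [← Finset.mul_sum, ← h2] at h4
  have h5 : (∏ i, hM.isHermitian.eigenvalues i ^ (1 / N : ℝ)) ^ N = M.det := by
    rw [← Finset.prod_pow, h1]
    refine Finset.prod_congr rfl (fun i _ => ?_)
    rw [← Real.rpow_natCast, ← Real.rpow_mul (h3 i), one_div, inv_mul_cancel₀ hNpos.ne',
      Real.rpow_one]
  rw [← h5]
  refine pow_le_pow_left₀ (Finset.prod_nonneg (fun i _ => Real.rpow_nonneg (h3 i) _)) ?_ N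
  refine h4.trans (le_of_eq ?_)
  ring

end Pool.Agent.Helper76.GT
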