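import Pool.Agent.Helper76.GT.Asm
import Pool.Agent.Helper27.GT.M_FDM
import Pool.Agent.Helper40.GT.M_POI
import Pool.Agent.Helper62.GT.M_WHI
import Pool.Agent.Helper76.GT.M_DET

/-!
# MP_b731ff_al: project GT, final theorem
-/

set_option autoImplicit false

namespace Pool.Agent.Helper76.GT

open Filter
open scoped Pointwise

universe u v

/-- **the torsion case of Gromov's theorem** for groups all of whose subgroups are finite or of
finite index and all of whose nontrivial elements have finite centralizers -/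
theorem pFIN (H : Type u) [Group H] [DecidableEq H] : FIN H :=
  fin_all H (Pool.Agent.Helper40.GT.pPOI H) pDET
    Pool.Agent.Helper62.GT.pWHI (fun h1 h2 h3 => Pool.Agent.Helper27.GT.pFDM H h1 h2 h3)

/-- **main theorem** -/
theorem finite_main (G : Type u) (X : Type v) [Group G] [MulAction G X]
    (htor : ∀ g : G, IsOfFinOrder g)
    (hRF : ∀ g : G, g ≠ 1 → ∃ N : Subgroup G, N.Normal ∧ N.index ≠ 0 ∧ g ∉ N)
    (hmin : ∀ H : ℕ → Subgroup G, Antitone H →
        ∃ n : ℕ, ∀ m : ℕ, n ≤ m → ((H (m + 1)).subgroupOf (H m)).index ≠ 0)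
    (hfaith : ∀ g : G, (∀ x : X, g • x = x) → g = 1)
    (horb : Pool.Agent.Helper76.WM.PolyOrb G X) : Finite G :=
  finite_of_polyOrb G X (fun H _ _ => pFIN H) htor hRF hmin hfaith horb

end Pool.Agent.Helper76.GT
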