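import Pool.Agent.Helper79.GT.St4

/-!
# Project GT, module SM5: the run of a space bounded Turing machine
-/

set_option autoImplicit false

namespace Pool.Agent.Helper76.GT

open Pool.Agent.Helper73.DC Pool.Agent.Helper79.GS Pool.Agent.Helper79.GT Finset
open scoped Classical

/-- The run of the machine, constant from the halting configuration on. -/
private def run (M : OTM (Fin 5)) (x : List (Fin 5)) : ℕ → M.Cfg
  | 0 => M.init
  | i + 1 => (M.step x (run M x i)).getD (run M x i)

private theorem run_none {M : OTM (Fin 5)} {x : List (Fin 5)} {i : ℕ}
    (h : M.step x (run M x i) = none) : run M x (i + 1) = run M x i := by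
  change (M.step x (run M x i)).getD (run M x i) = _
  rw [h]
  rfl

private theorem run_some {M : OTM (Fin 5)} {x : List (Fin 5)} {i : ℕ} {c : M.Cfg}
    (h : M.step x (run M x i) = some c) : run M x (i + 1) = c := by
  change (M.step x (run M x i)).getD (run M x i) = _
  rw [h]
  rfl

private theorem run_reaches (M : OTM (Fin 5)) (x : List (Fin 5)) (i : ℕ) :
    M.Reaches x M.init (run M x i) := by
  induction i with
  | zero => exact Relation.ReflTransGen.refl
  | succ i ih =>
    cases h : M.step x (run M x i) with
    | none =>
      rw [run_none h]
      exact ih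
    | some c =>
      rw [run_some h]
      exact ih.tail h

private theorem reaches_run {M : OTM (Fin 5)} {x : List (Fin 5)} {c : M.Cfg}
    (hc : M.Reaches x M.init c) :
    ∃ h, run M x h = c ∧ ∀ i < h, M.step x (run M x i) = some (run M x (i + 1)) := by
  induction hc with
  | refl => exact ⟨0, rfl, fun i hi => absurd hi (Nat.not_lt_zero i)⟩
  | tail _ hbc ih =>
    obtain ⟨h, hh, hs⟩ := ih
    have h1 := hh ▸ hbc
    refine ⟨h + 1, run_some h1, ?_⟩
    intro i hi
    rcases Nat.lt_succ_iff_lt_or_eq.1 hi with hi | rfl
    · exact hs i hi
    · rw [run_some h1]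
      exact h1

private theorem run_const {M : OTM (Fin 5)} {x : List (Fin 5)} {h : ℕ}
    (hh : M.step x (run M x h) = none) (k : ℕ) : run M x (h + k) = run M x h := by
  induction k with
  | zero => rfl
  | succ k ih =>
    have h1 : M.step x (run M x (h + k)) = none := by rw [ih]; exact hh
    have h2 := run_none h1
    rw [← add_assoc, h2, ih]

private theorem reaches_ok {M : OTM (Fin 5)} {x : List (Fin 5)} {S : ℕ}
    (hS : ∀ c, M.Reaches x M.init c → ∀ t, c.hd t < S) {c : M.Cfg}
    (hc : M.Reaches x M.init c) : OkC M S x.length c := by
  have key : c.pos ≤ x.length + 1 ∧ ∀ t, ∀ i, S ≤ i → c.tp t i = M.blank := by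
    induction hc with
    | refl => exact ⟨Nat.zero_le _, fun t i _ => rfl⟩
    | @tail b c hab hbc ih =>
      have hb := hS b hab
      unfold OTM.step at hbc
      split at hbc
      · exact absurd hbc (by simp)
      · rename_i q d f _
        have e := Option.some.inj hbc
        rw [← e]
        refine ⟨min_le_right _ _, ?_⟩
        intro t i hi
        change Function.update (b.tp t) (b.hd t) (f t).1 i = _
        rw [Function.update_of_ne]
        · exact ih.2 t i hi
        · have := hb t
          omega
  exact ⟨key.1, hS c hc, key.2⟩

private theorem cQ_inj {M : OTM (Fin 5)} {q q' : M.Q} (h : cQ M q = cQ M q') : q = q' := by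
  unfold cQ at h
  exact (@Finite.equivFin M.Q M.finQ).injective (Fin.val_injective h)

private theorem numC_init (M : OTM (Fin 5)) (β S : ℕ) : numC M β S M.init = cQ M M.q0 := by
  unfold numC cfgN
  rw [Finset.sum_eq_single 0]
  · simp [OTM.init]
  · intro i _ hi
    beta_reduce
    rw [if_neg hi]
    by_cases h1 : i = 1
    · rw [if_pos h1]
      simp [OTM.init]
    · rw [if_neg h1]
      by_cases h2 : i % 2 = 0
      · rw [if_pos h2]
        have : (if h : (i - 2) / 2 < M.tapes then M.init.hd ⟨(i - 2) / 2, h⟩ else 0) = 0 := by
          split
          · rfl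
          · rfl
        rw [this, zero_mul]
      · rw [if_neg h2]
        have hb : cG M M.blank = 0 := by
          unfold cG
          rw [if_pos rfl]
        have : (if h : (i - 3) / 2 < M.tapes then
            ∑ j ∈ range S, cG M (M.init.tp ⟨(i - 3) / 2, h⟩ j) * nG M ^ j else 0) = 0 := by
          split
          · apply Finset.sum_eq_zero
            intro j _
            change cG M M.blank * _ = 0
            rw [hb, zero_mul]
          · rfl
        rw [this, zero_mul]
  · intro h
    exact absurd (mem_range.2 (by omega)) h

theorem hSM5 (hSM2 : StSM2) (hSM4 : StSM4) : Pool.Agent.Helper79.GT.StSM5 := by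
  intro M D s hD x N β h1 h2 h3 h4
  obtain ⟨⟨c, hc, hcn, hacc⟩, hS⟩ := hD x
  obtain ⟨h, hh, hs⟩ := reaches_run hc
  have hok : ∀ i, OkC M (s x.length) x.length (run M x i) := fun i =>
    reaches_ok hS (run_reaches M x i)
  have hSM2' := (hSM2 M β (s x.length) x.length h1 h3).2
  have hSM4' := hSM4 M x N β (s x.length) h1 h2 h3
  have hlt : ∀ i, numC M β (s x.length) (run M x i) < N := fun i =>
    lt_of_lt_of_le (hSM2' _ (hok i)).1 h4
  have hst : ∀ i, stN M N x.length (lett x) β (numC M β (s x.length) (run M x i)) =
      numC M β (s x.length) (run M x (i + 1)) := by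
    intro i
    cases hi : M.step x (run M x i) with
    | none =>
      rw [run_none hi]
      exact ((hSM4' _ (hok i)).1 hi).2
    | some c' =>
      have e := run_some hi
      have ho := hok (i + 1)
      rw [e] at ho ⊢
      exact ((hSM4' _ (hok i)).2 c' hi ho).2
  have hit : ∀ i, itN M N x.length (lett x) β i = numC M β (s x.length) (run M x i) := by
    intro i
    induction i with
    | zero =>
      change min (cQ M M.q0) N = numC M β (s x.length) M.init
      have := hlt 0
      change numC M β (s x.length) M.init < N at this
      rw [numC_init] at this ⊢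
      exact min_eq_left this.le
    | succ i ih =>
      change min (stN M N x.length (lett x) β (itN M N x.length (lett x) β i)) N = _
      rw [ih, hst i]
      exact min_eq_left (hlt (i + 1)).le
  have hnone : M.step x (run M x h) = none := by rw [hh]; exact hcn
  have hhN : h ≤ N := by
    by_contra hcon
    push Not at hcon
    obtain ⟨i, hi, j, hj, hij, hz⟩ := Finset.exists_ne_map_eq_of_card_lt_of_maps_to
      (s := range (N + 1)) (t := range N) (f := fun i => numC M β (s x.length) (run M x i))
      (by rw [card_range, card_range]; exact Nat.lt_succ_self N)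
      (fun i _ => by
        have := hlt i
        simpa using this)
    have main : ∀ i j : ℕ, i < j → j ≤ N →
        numC M β (s x.length) (run M x i) = numC M β (s x.length) (run M x j) → False := by
      intro i j hij hjN hz
      have hk : ∀ k, numC M β (s x.length) (run M x (i + k)) =
          numC M β (s x.length) (run M x (j + k)) := by
        intro k
        induction k with
        | zero => exact hz
        | succ k ih =>
          rw [← add_assoc, ← add_assoc, ← hst, ← hst, ih]
      have h5 := hk (h - j)
      have e1 : j + (h - j) = h := by omega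
      rw [e1] at h5
      have h6 : i + (h - j) < h := by omega
      have h7 := ((hSM4' _ (hok (i + (h - j)))).2 _ (hs _ h6) (hok _)).1
      have h8 := ((hSM4' _ (hok h)).1 hnone).1
      rw [h5] at h7
      exact h7 h8
    rw [mem_range] at hi hj
    rcases lt_or_gt_of_ne hij with hlt' | hlt'
    · exact main i j hlt' (by omega) hz
    · exact main j i hlt' (by omega) hz.symm
  have hrun : run M x N = c := by
    have := run_const hnone (N - h)
    rw [show h + (N - h) = N by omega] at this
    rw [this, hh]
  have hdg : dg β (itN M N x.length (lett x) β N) 0 = cQ M c.q := by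
    rw [hit N, hrun]
    have := hok N
    rw [hrun] at this
    exact (hSM2' c this).2.1
  rw [hdg]
  constructor
  · rintro ⟨q, hq, hqa⟩
    rw [cQ_inj hq] at hqa
    exact hacc.1 hqa
  · intro hx
    exact ⟨c.q, rfl, hacc.2 hx⟩

end Pool.Agent.Helper76.GT
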