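import Pool.Agent.Helper76.GT.Defs

/-!
# MP_b731ff_al, project GT: the torsion case of Gromov's theorem (statements)

Goal (FIN): an infinite finitely generated torsion group, all of whose subgroups are finite or of
finite index and all of whose nontrivial elements have finite centralizers, has superpolynomial
growth. (Kleiner's proof: the Lipschitz harmonic functions form a finite dimensional space, there
is a nonzero one, and the isometric action of the group on this space has finite image.)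

Conventions: `S ^ n` is the set of all products of `n` elements of `S`; since `1 ∈ S` the sets
`S ^ n` increase with `n` (`Finset.pow_subset_pow_right`), `S ^ (m + n) = S ^ m * S ^ n`, and they
are closed under inverses. `B(x, n) = x S ^ n`; sums over the ball are written
`∑ y ∈ S ^ n, F (x * y)`. See `Pool/Agent/Helper76/WM/Growth.lean` for `pow_mono`,
`exists_subset_pow`.
-/

set_option autoImplicit false

namespace Pool.Agent.Helper76.GT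

open scoped Pointwise
open Filter

universe u

section Balls

variable (H : Type u) [Group H] [DecidableEq H]

/-- **POI** (Poincare inequality on balls). PROOF. Let `B = S ^ r` (it contains `1`). For any real
function `F` on a finite set `B`: `∑_{y ∈ B} (F y - mean)^2 = (1/(2|B|)) ∑_{y,z ∈ B} (F y - F z)^2`.
For `y, z ∈ B` one has `g := y⁻¹ z ∈ S ^ (2 r)`, `z = y g`. So the double sum is at most
`∑_{g ∈ S ^ (2r)} ∑_{y ∈ S ^ r} (f (x y g) - f (x y))^2` (for each `y` the map `z ↦ y⁻¹ z` is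
injective). Fix `g = s_1 ... s_{2r}`, `g_j = s_1 ... s_j ∈ S ^ j`. By Cauchy-Schwarz
`(f (x y g) - f (x y))^2 ≤ 2r ∑_{j < 2r} (f (x y g_j s_{j+1}) - f (x y g_j))^2
 ≤ 2r ∑_{j < 2r} grad2 S f (x y g_j)`,
and for fixed `j` the map `y ↦ y g_j` is injective from `S ^ r` to `S ^ (r + j) ⊆ S ^ (3 r)`, so
`∑_{y ∈ S ^ r} (f (x y g) - f (x y))^2 ≤ (2r)^2 ∑_{w ∈ S ^ (3r)} grad2 S f (x w)`.
(Convenient: prove by induction on `m`: for all `g ∈ S ^ m` and all `r`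
`∑_{y ∈ S ^ r} (f (x y g) - f (x y))^2 ≤ m^2 ∑_{w ∈ S ^ (r+m)} grad2 S f (x w)`,
using `(a + b)^2 ≤ (1 + 1/m) a^2 + (1 + m) b^2`, or the list version above.) Sum over `g`. -/
def POI : Prop := ∀ S : Finset H, Gen S → ∀ (f : H → ℝ) (x : H) (r : ℕ),
  ∑ y ∈ S ^ r, (f (x * y) - (∑ z ∈ S ^ r, f (x * z)) / ((S ^ r).card : ℝ)) ^ 2 ≤
    2 * (r : ℝ) ^ 2 * (((S ^ (2 * r)).card : ℝ) / ((S ^ r).card : ℝ)) *
      ∑ w ∈ S ^ (3 * r), grad2 S f (x * w)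

/-- **CAC** (Caccioppoli, reverse Poincare inequality). PROOF. Let `|x| = min {n | x ∈ S ^ n}`
(exists since `S` generates and `S` is symmetric, see `exists_subset_pow`), so
`| |x s| - |x| | ≤ 1` for `s ∈ S`. Let `φ x = min 1 (max 0 (2 - |x|/R))`: `φ = 1` on `S ^ R`,
`φ x = 0` if `|x| ≥ 2R`, `0 ≤ φ ≤ 1`, `|φ (x s) - φ x| ≤ 1/R`, and if `φ (x s) ≠ φ x` then
`|x| < 2R` or `|x s| < 2R`, so `x, x s ∈ S ^ (2R)`. All sums below are over `x ∈ S ^ (2R)`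
(or all `x`: the terms have finite support) and `s ∈ S`; the substitution
`(x, s) ↦ (x s, s⁻¹)` is an involution of `{(x, s)}`. Let `A = ∑ φ(x)^2 (f x - f (x s))^2`.
Since `f` is harmonic `∑ φ(x)^2 f(x) (f x - f (x s)) = 0`, and by the substitution
`∑ φ(x s)^2 f(x s) (f (x s) - f x) = 0`. Add:
`0 = ∑ (f x - f (x s)) (φ(x)^2 f x - φ(x s)^2 f (x s))`, and
`φ(x)^2 f x - φ(x s)^2 f(x s) = φ(x)^2 (f x - f (x s)) + (φ(x)^2 - φ(x s)^2) f (x s)`. So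
`A = - ∑ (f x - f (x s)) (φ x + φ (x s)) (φ x - φ (x s)) f (x s)
  ≤ ∑ ((1/8) (f x - f (x s))^2 (φ x + φ (x s))^2 + 2 (φ x - φ (x s))^2 f (x s)^2)`
and `(φ x + φ (x s))^2 ≤ 2 φ(x)^2 + 2 φ(x s)^2`, so by the substitution the first part is at most
`A/2`. Hence `A ≤ 4 ∑ (φ x - φ (x s))^2 f(x s)^2 ≤ 4 |S| R^(-2) ∑_{y ∈ S ^ (2R)} f(y)^2`, and
`A ≥ ∑_{x ∈ S ^ R} grad2 S f x`. -/
def CAC : Prop := ∀ S : Finset H, Gen S → ∀ f : H → ℝ, Harm S f → ∀ R : ℕ, 1 ≤ R →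
  ∑ x ∈ S ^ R, grad2 S f x ≤ 4 * (S.card : ℝ) / (R : ℝ) ^ 2 * ∑ x ∈ S ^ (2 * R), f x ^ 2

/-- **COV** (covering of a ball by small balls). PROOF. Let `C` be a maximal subset of `S ^ R`
(maximal cardinality, `Finset.exists_max_image` on the powerset) such that the sets `c S ^ a`,
`c ∈ C`, are pairwise disjoint. If `x ∈ S ^ R` then `x S ^ a` meets some `c S ^ a` (`c ∈ C`; if
`x ∈ C` trivial), so `x ∈ c S ^ a (S ^ a)⁻¹ = c S ^ (2a)`. The disjoint sets `c S ^ a` are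
contained in `S ^ (R + a)`. If `c⁻¹ w ∈ S ^ (6a)` then `c ∈ w S ^ (6a)` (inverses) and
`c S ^ a ⊆ w S ^ (7a)`; these sets are disjoint and `w S ^ (7a)` has `|S ^ (7a)|` elements. -/
def COV : Prop := ∀ S : Finset H, Gen S → ∀ a R : ℕ, ∃ C : Finset H, C ⊆ S ^ R ∧
  (∀ x ∈ S ^ R, ∃ c ∈ C, c⁻¹ * x ∈ S ^ (2 * a)) ∧
  C.card * (S ^ a).card ≤ (S ^ (R + a)).card ∧
  ∀ w : H, (C.filter (fun c => c⁻¹ * w ∈ S ^ (6 * a))).card * (S ^ a).card ≤ (S ^ (7 * a)).card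

/-- **TRC** (trace estimate; hypotheses POI, CAC, COV). PROOF. Let `R = L a`, `C` the set of COV
for `(a, R)`, `J' = |C| ≤ J`. Write `mean_c(u) = (∑_{y ∈ S^(2a)} u(c y)) / |S^(2a)|`. For each
`u = u_i`: `∑_{x ∈ S ^ R} u(x)^2 ≤ ∑_{c ∈ C} ∑_{y ∈ S ^ (2a)} u(c y)^2
  = ∑_c (∑_y (u(c y) - mean_c u)^2 + |S ^ (2a)| (mean_c u)^2)`.
(1) By POI with `r = 2a` and `|S ^ (4a)| ≤ |S ^ (7a)| ≤ κ |S ^ a| ≤ κ |S ^ (2a)|`:
`∑_y (u(c y) - mean_c u)^2 ≤ 8 a^2 κ ∑_{w ∈ S ^ (6a)} grad2 S u (c w)`. Sum over `c`: a point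
`v = c w` lies in `S ^ (R + 6a) ⊆ S ^ (2R)` (as `L ≥ 6`) and is hit by at most
`|S ^ (7a)|/|S ^ a| ≤ κ` elements `c`. So the sum is at most `8 a^2 κ^2 ∑_{v ∈ S ^ (2R)} grad2 S u v`
which by CAC (radius `2R`) is at most `8 a^2 κ^2 (4 |S| / (2R)^2) ∑_{S ^ (4R)} u^2
 = 8 κ^2 |S| / L^2`.
(2) For fixed `c ∈ C` let `ℓ u = |S^(2a)|^(1/2) mean_c u`, linear in `u`, and
`ℓ(u)^2 ≤ ∑_{y ∈ S^(2a)} u(c y)^2 ≤ ∑_{S ^ (4R)} u^2` (Cauchy-Schwarz; `c S^(2a) ⊆ S^(4R)`,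
`y ↦ c y` injective). Bessel: with `T = ∑_i ℓ(u_i)^2` and `g = ∑_i ℓ(u_i) u_i`: `ℓ(g) = T`,
`∑_{S ^ (4R)} g^2 = T` (orthonormality), so `T^2 ≤ T`, `T ≤ 1`. Sum over `c`: at most `|C| ≤ J`. -/
def TRC : Prop := ∀ S : Finset H, Gen S → ∀ (N : ℕ) (u : Fin N → H → ℝ), (∀ i, Harm S (u i)) →
  ∀ (a L : ℕ) (κ J : ℝ), 1 ≤ a → 6 ≤ L →
  ((S ^ (7 * a)).card : ℝ) ≤ κ * ((S ^ a).card : ℝ) →
  ((S ^ (L * a + a)).card : ℝ) ≤ J * ((S ^ a).card : ℝ) →
  (∀ i j, ∑ x ∈ S ^ (4 * (L * a)), u i x * u j x = if i = j then 1 else 0) →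
  ∑ i, ∑ x ∈ S ^ (L * a), u i x ^ 2 ≤ N * (8 * κ ^ 2 * (S.card : ℝ) / (L : ℝ) ^ 2) + J

/-- **GRA** (Gram matrices). PROOF. (0) `vᵀ (gram R) v = ∑_{x ∈ S^R} (∑_i v_i f_i x)^2 ≥ 0`.
(1) For linearly independent `f` the decreasing (in `R`) subspaces
`{v | ∑_i v_i f_i = 0 on S ^ R}` of `ℝ^N` have intersection zero (`S` generates, so the balls
exhaust `H`); a decreasing sequence of subspaces of a finite dimensional space is constant from
some `R₀` on (e.g. `finrank`), so it is zero from `R₀` on. (2) All entries of `gram R` are at most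
`(C R)^2 |S ^ R|` in absolute value, and `|det M| ≤ N! (max |M i j|)^N` (`Matrix.det_le` or the
Leibniz formula). -/
def GRA : Prop := ∀ S : Finset H, Gen S → ∀ (N : ℕ) (f : Fin N → H → ℝ),
  (∀ R : ℕ, (gram S f R).PosSemidef) ∧
  (LinearIndependent ℝ f → ∃ R₀ : ℕ, ∀ R : ℕ, R₀ ≤ R → (gram S f R).PosDef) ∧
  ∀ (C : ℝ) (R : ℕ), 0 ≤ C → (∀ i, ∀ n : ℕ, ∀ x ∈ S ^ n, |f i x| ≤ C * n) →
    (gram S f R).det ≤ (N.factorial : ℝ) * ((C * R) ^ 2 * ((S ^ R).card : ℝ)) ^ N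

end Balls

/-- **DET**. PROOF. The eigenvalues `e_i ≥ 0` of `M`: `det M = ∏ e_i`, `trace M = ∑ e_i`
(`Matrix.IsHermitian.det_eq_prod_eigenvalues`, `Matrix.IsHermitian.trace_eq_sum_eigenvalues`), and
the inequality of arithmetic and geometric means (`Real.inner_le_nnorm_mul_nnorm` is not needed:
`Real.geom_mean_le_arith_mean_weighted` or `inner_le`...). -/
def DET : Prop := ∀ (N : ℕ) (M : Matrix (Fin N) (Fin N) ℝ), 1 ≤ N → M.PosSemidef →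
  M.det ≤ (M.trace / N) ^ N

/-- **WHI** (whitening). PROOF. `P = Bᵀ B` with `B` invertible (`Matrix.PosDef`: e.g. from
`Matrix.posSemidef_iff_eq_conjTranspose_mul_self` and `det P ≠ 0`, or the square root);
`c = (B⁻¹)ᵀ`: `c P cᵀ = (B⁻¹)ᵀ Bᵀ B B⁻¹ = 1`. -/
def WHI : Prop := ∀ (N : ℕ) (P : Matrix (Fin N) (Fin N) ℝ), P.PosDef →
  ∃ c : Matrix (Fin N) (Fin N) ℝ, c * P * c.transpose = 1

section Key

variable (H : Type u) [Group H] [DecidableEq H]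

/-- **KEY** (hypotheses TRC, GRA, DET, WHI). PROOF. Let `R ≤ R'`, `P = gram R'` positive definite,
`c` from WHI, `u_i = ∑_j c_ij f_j`; then `gram S u R = c (gram S f R) cᵀ` for every `R`, so
`gram S u R' = 1`, `det(c)^2 det P = 1` and
`det (gram S f R) = det (gram S u R) * det P`. By DET `det (gram S u R) ≤ (tr/N)^N` with
`tr = ∑_i ∑_{x ∈ S^R} u_i(x)^2`. (1) For `R ≤ R'`: `tr ≤ trace (gram S u R') = N`, so
`det (gram S f R) ≤ det P` (`det P > 0`; the case `N = 0` is trivial). (2) For `R = L a`,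
`R' = 4 L a` and `f_i` harmonic the `u_i` are harmonic and TRC gives
`tr ≤ N (8 κ^2 |S| / L^2) + J`. -/
def KEY : Prop := ∀ S : Finset H, Gen S → ∀ (N : ℕ) (f : Fin N → H → ℝ), 1 ≤ N →
  (∀ R R' : ℕ, R ≤ R' → (gram S f R').PosDef → (gram S f R).det ≤ (gram S f R').det) ∧
  ((∀ i, Harm S (f i)) → ∀ (a L : ℕ) (κ J : ℝ), 1 ≤ a → 6 ≤ L →
    ((S ^ (7 * a)).card : ℝ) ≤ κ * ((S ^ a).card : ℝ) →
    ((S ^ (L * a + a)).card : ℝ) ≤ J * ((S ^ a).card : ℝ) →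
    (gram S f (4 * (L * a))).PosDef →
    (gram S f (L * a)).det ≤
      (8 * κ ^ 2 * (S.card : ℝ) / (L : ℝ) ^ 2 + J / N) ^ N * (gram S f (4 * (L * a))).det)

end Key

/-- **SCL** (choice of a scale; real sequences only). PROOF. Put, for `j₀ ≤ j`, `j + l + 1 < m`,
`T_j = (A(j+1) - A j) + (A(j+l+1) - A j)/(l+1) + (B(j+l+1) - B(j+l))`; the three summands are
nonnegative. Sum over `j₀ ≤ j < m - l - 1`: the first telescopes to at most `A m - A 0`, for the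
second `∑_j (A(j+l+1) - A j) ≤ (l+1) (A m - A 0)` (it is a sum of `l+1` telescoping sums), the
third to at most `B m - B(j₀)`. So the sum is at most `2 (t d m + c₁) + (t (d+2) m + c₂) - B(j₀)
= t (3d + 2) m + c` for infinitely many `m`, and there are `m - l - 1 - j₀` terms. For such an `m`
large enough `t (3d+2) m + c < t (3d+3) (m - l - 1 - j₀)` (as `t > 0`), so some
`T_j ≤ t (3d+3)`, and each of the three summands is at most `t (3d+3)`. -/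
def SCL : Prop := ∀ (A B : ℕ → ℝ) (t c₁ c₂ : ℝ) (d l j₀ : ℕ), 0 < t → Monotone A → 0 ≤ A 0 →
  (∀ j k, j₀ ≤ j → j ≤ k → B j ≤ B k) →
  (∃ᶠ m : ℕ in atTop, A m ≤ t * d * m + c₁ ∧ B m ≤ t * (d + 2) * m + c₂) →
  ∃ j : ℕ, j₀ ≤ j ∧ A (j + 1) - A j ≤ t * (3 * d + 3) ∧
    A (j + l + 1) - A j ≤ (l + 1) * (t * (3 * d + 3)) ∧
    B (j + l + 1) - B (j + l) ≤ t * (3 * d + 3)

section Dim

variable (H : Type u) [Group H] [DecidableEq H]

/-- **FDM** (finite dimensionality; hypotheses GRA, KEY, SCL). PROOF. Let `|S ^ n| ≤ C₀ n ^ d` for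
infinitely many `n`, `t = log 8`, `κ = exp (t (3d+3)) = 8 ^ (3d+3)`, choose `l ≥ 1` with
`8 κ^3 |S| / 64 ^ l ≤ 1/2`, `L = 8 ^ l`, `J = κ ^ (l+1)`, and take `N₀ = ⌈2 κ J⌉`. Let `f` be as in
the statement and suppose `N ≥ 1`. The functions are bounded by `C n` on `S ^ n` (Lipschitz,
`f_i 1 = 0`, induction on `n`; common `C`). Let `A j = log |S ^ (8^j)|` (monotone, `A 0 ≥ 0`) and
`B j = (1/N) log det (gram S f (8^j))`; by GRA the matrices are positive definite for `8^j ≥ R₀`,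
`j ≥ j₀`, and `B` is monotone from `j₀` on by KEY (1). If `|S ^ n| ≤ C₀ n ^ d`, `8^m ≤ n < 8^(m+1)`
then `A m ≤ log C₀ + d (m+1) log 8` and by GRA (2)
`B m ≤ (1/N) log N! + 2 log (C+1) + 2 m log 8 + A m`; infinitely many `n` give infinitely many `m`.
SCL gives `j ≥ j₀`; put `a = 8^j`, `L a = 8^(j+l)`. Then `|S ^ (7a)| ≤ |S ^ (8^(j+1))| ≤ κ |S ^ a|`,
`|S ^ (L a + a)| ≤ |S ^ (8^(j+l+1))| ≤ J |S ^ a|`, and with KEY (1) and (2)
`det gram(La) ≤ (8κ²|S|/L² + J/N)^N det gram(4La) ≤ (...)^N det gram(8La)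
 ≤ (...)^N κ^N det gram(La)`. As `det gram(La) > 0`: `1 ≤ κ (8κ²|S|/L² + J/N) ≤ 1/2 + κ J/N`, so
`N ≤ 2 κ J ≤ N₀`. -/
def FDM : Prop := ∀ S : Finset H, Gen S → PolyGrowth S → ∃ N₀ : ℕ, ∀ (N : ℕ) (f : Fin N → H → ℝ),
  LinearIndependent ℝ f → (∀ i, Harm S (f i)) → (∀ i, Lip S (f i)) → (∀ i, f i 1 = 0) → N ≤ N₀

end Dim

section Exist

variable (H : Type u) [Group H] [DecidableEq H]

/-- **HAA** (test functions). PROOF. `k = |S|`, `⟨u, v⟩ = ∑ u v` for functions of finite support,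
`(λ_s u)(x) = u (s⁻¹ x)`, `P u = (1/k) ∑_s λ_s u` (self-adjoint since `S = S⁻¹`),
`T = (1 + P)/2`. For `u` of finite support `en S u = 2k ⟨(1-P) u, u⟩ = 4k ⟨(1-T) u, u⟩`,
`lap S u = 2k (1-T) u`, `⟨T w, w⟩ = (1/(4k)) ∑_s ‖w + λ_s w‖² ≥ 0`.
Let `q_n = T^n δ` (`δ` the indicator of `1`): `q_n ≥ 0`, supported in `S ^ n`, `∑ q_n = 1`.
`c_n = q_n(1) = ⟨T^n δ, δ⟩`, `⟨q_i, q_j⟩ = c_(i+j)`, `a_n = c_n - c_(n+1)`. Then
`a_(2n) = ⟨(1-T) q_n, q_n⟩ = en(q_n)/(4k) ≥ 0`, `a_(2n) - a_(2n+1) = ‖(1-T) q_n‖² ≥ 0`,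
`a_(2n+1) - a_(2n+2) = ⟨T w, w⟩ ≥ 0` for `w = (1-T) q_n`. So `a` is nonnegative and nonincreasing,
`c` is nonincreasing, and `nrm2 (lap q_n) / en q_n = k (a_(2n) - a_(2n+1))/a_(2n)`.
`c_n → 0`: otherwise `c_n ≥ c > 0` for all `n`; take a finite `F ⊆ H` with `|F| ≥ 2/c + 1`. As
`a_n → 0`, `en(q_n) → 0`, so `|q_n(x) - q_n(s⁻¹ x)| → 0` uniformly in `x`, so for each `x` (a product
of elements of `S`) `q_n(x) - q_n(1) → 0`, so for large `n`: `∑_{x ∈ F} q_n(x) ≥ |F| c/2 > 1`,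
contradiction. `en(q_n) > 0`: otherwise `q_n` is constant on the infinite group `H`.
If the claim fails for some `ε` (we may take `ε < k`), then `a_(2n+2) ≤ a_(2n+1) ≤ ρ a_(2n)` for all
`n` with `ρ = 1 - ε/k`, so `a_(2n) ≤ ρ^n a_0` and `c_(2n) = ∑_{j ≥ 2n} a_j ≤ 2 a_0 ρ^n/(1-ρ)`.
But `1 = (∑_{S ^ n} q_n)² ≤ |S ^ n| ∑ q_n² = |S ^ n| c_(2n)`, so for infinitely many `n`
`1 ≤ C n^d 2 a_0 ρ^n/(1-ρ)`, a contradiction for large `n`. -/
def HAA : Prop := ∀ S : Finset H, Gen S → Infinite H → PolyGrowth S → ∀ ε : ℝ, 0 < ε →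
  ∃ u : H → ℝ, (Function.support u).Finite ∧ 0 < en S u ∧ nrm2 (lap S u) ≤ ε * en S u

/-- **HAB** (the limit; hypothesis HAA in unfolded form). PROOF. For `n ≥ 1` take `u = u_n` for
`ε = 1/n`; choose `s_n ∈ S` with `nrm2 (u - λ_(s_n) u) ≥ en(u)/|S| > 0`, let
`v_n = (u - λ_(s_n) u)/(its norm)`, and
`F_n(g) = ⟨u - λ_g u, v_n⟩ / en(u)^(1/2)`. Then `F_n(1) = 0`;
`F_n(g s) - F_n(g) = ⟨λ_g (u - λ_s u), v_n⟩/en(u)^(1/2)` is at most `1` in absolute value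
(Cauchy-Schwarz; `nrm2(u - λ_s u) ≤ en u`); `∑_s (F_n(g s) - F_n(g)) = ⟨λ_g (lap u), v_n⟩/en(u)^(1/2)`
is at most `n^(-1/2)` in absolute value; `F_n(s_n) = nrm2(u - λ_(s_n) u)^(1/2)/en(u)^(1/2) ≥ |S|^(-1/2)`.
So `|F_n(g)| ≤ m` for `g ∈ S ^ m`. Take an ultrafilter on `ℕ` finer than `atTop`; the bounded
sequences `F_n(g)` converge along it to `f(g)` (compactness of `[-m, m]`), and `s_n = s` for a fixed
`s` along it. `f` is harmonic, 1-Lipschitz, `f 1 = 0`, `f s ≥ |S|^(-1/2) > 0`. -/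
def HAB : Prop := ∀ S : Finset H, Gen S →
  (∀ ε : ℝ, 0 < ε → ∃ u : H → ℝ, (Function.support u).Finite ∧ 0 < en S u ∧
    nrm2 (lap S u) ≤ ε * en S u) →
  ∃ f : H → ℝ, Harm S f ∧ Lip S f ∧ f 1 = 0 ∧ f ≠ 0

end Exist

section Rep

variable (H : Type u) [Group H] [DecidableEq H]

/-- the properties of `ν g = ‖ρ g - 1‖` for an isometric action `ρ` on a finite dimensional
normed space -/
structure NearId {H : Type*} [Group H] (ν : H → ℝ) : Prop where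
  nonneg : ∀ g, 0 ≤ ν g
  one : ν 1 = 0
  mul : ∀ g h, ν (g * h) ≤ ν g + ν h
  inv : ∀ g, ν g⁻¹ = ν g
  conj : ∀ g h, ν (h * g * h⁻¹) = ν g
  comm : ∀ g h, ν (g * h * g⁻¹ * h⁻¹) ≤ 2 * ν g * ν h
  pow : ∀ (g : H) (n : ℕ), n * ν g - (n : ℝ) ^ 2 * ν g ^ 2 ≤ ν (g ^ n)
  cpt : ∀ ε : ℝ, 0 < ε → ∃ F : Finset H, ∀ g : H, ∃ h ∈ F, ν (h⁻¹ * g) < ε

/-- **ISO** (no hypotheses; functional analysis only). PROOF. Let `ρ : H → E →L[ℝ] E` be
multiplicative with `‖ρ g v‖ = ‖v‖`, `E` finite dimensional; `ν g = ‖ρ g - 1‖`. Multiplying an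
operator on either side by `ρ h` does not change its norm, so `ν(gh) = ‖ρ g (ρ h - 1) + (ρ g - 1)‖
≤ ν g + ν h`, `ν(g⁻¹) = ‖ρ(g⁻¹)(1 - ρ g)‖ = ν g`, `ν(h g h⁻¹) = ν g`,
`ν(g h g⁻¹ h⁻¹) = ‖(ρ(gh) - ρ(hg)) ρ(g⁻¹h⁻¹)‖ = ‖(ρ g - 1)(ρ h - 1) - (ρ h - 1)(ρ g - 1)‖
≤ 2 ν g ν h`; `ν(g^i) ≤ i ν g`, `ρ(g^n) - 1 = n (ρ g - 1) + ∑_{i<n} (ρ(g^i) - 1)(ρ g - 1)` so
`ν(g^n) ≥ n ν g - ∑_{i<n} i (ν g)^2`. `cpt`: the set `ρ(H)` is bounded in the finite dimensional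
space `E →L[ℝ] E`, so totally bounded: it is covered by finitely many balls of radius `ε` with
centres in `ρ(H)`, and `‖ρ g - ρ h‖ = ν(h⁻¹ g)`. -/
def ISO : Prop := ∀ (E : Type u) [NormedAddCommGroup E] [NormedSpace ℝ E]
  [FiniteDimensional ℝ E] (ρ : H →* (E →L[ℝ] E)), (∀ g v, ‖ρ g v‖ = ‖v‖) →
  NearId (fun g : H => ‖ρ g - 1‖)

/-- **REP** (hypothesis ISO). PROOF. Let `V` be the vector space of all harmonic Lipschitz `f` with
`f 1 = 0`; by assumption it is finite dimensional. Norm: `‖f‖ = sup_{x, s} |f(x s) - f(x)|`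
(`⨆` over `H × S`; finite by `Lip`; `‖f‖ = 0` implies `f` constant since `S` generates, so `f = 0`).
`(ρ g f)(x) = f(g⁻¹ x) - f(g⁻¹)` is in `V` with the same norm, and `ρ` is multiplicative. ISO
gives the statement with `ν g = ‖ρ g - 1‖`; if `ν g = 0` then `ρ g f = f` and
`ρ (g⁻¹) f = f`, i.e. `f(g x) - f(g) = f(x)`. (One may transport everything to
`Fin m → ℝ` or use the submodule `V` with the norm above; alternatively prove `NearId` directly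
for `ν g = sup {‖ρ g f - f‖ : ‖f‖ ≤ 1}`.) -/
def REP : Prop := ∀ S : Finset H, Gen S → (∃ N₀ : ℕ, ∀ (N : ℕ) (f : Fin N → H → ℝ),
    LinearIndependent ℝ f → (∀ i, Harm S (f i)) → (∀ i, Lip S (f i)) → (∀ i, f i 1 = 0) →
    N ≤ N₀) →
  ∃ ν : H → ℝ, NearId ν ∧ ∀ g : H, ν g = 0 → ∀ f : H → ℝ, Harm S f → Lip S f → f 1 = 0 →
    ∀ x : H, f (g * x) = f g + f x

/-- **SEQ** (a sequence of commutators; no hypotheses). PROOF. Let `U = {g | ν g < ε}`; by `cpt`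
(`H` infinite, finitely many sets `h U` cover `H`) `U` is infinite, so `K = closure U` is infinite,
of finite index, finitely generated (`Subgroup.fg_of_index_ne_zero`), and there is a finite
`T ⊆ U` with `closure T = K` (each of the finitely many generators is in the closure of a finite
subset of `U`). There is `c ≥ 1` with `T ⊆ S ^ c` and (choose `g_0 ∈ U`, `g_0 ≠ 1`) `g_0 ∈ S ^ c`.
If `g ≠ 1` then some `t ∈ T` does not commute with `g`: otherwise `K` is contained in the finite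
group `centralizer {g}`. Define `g_(j+1) = g_j t g_j⁻¹ t⁻¹ ≠ 1` with such a `t`. Then
`ν(g_(j+1)) ≤ 2 ε ν(g_j)` and `g_j ∈ S ^ (3 c 2^j)`-ish: if `g_j ∈ S ^ ℓ` then
`g_(j+1) ∈ S ^ (2 ℓ + 2 c)`; by induction `g_j ∈ S ^ (c (3 * 2^j - 2))`, which is contained in
`S ^ (3 c 2^j)`. -/
def SEQ : Prop := ∀ S : Finset H, Gen S → Infinite H → FF H → FC H → ∀ ν : H → ℝ, NearId ν →
  ∀ ε : ℝ, 0 < ε → ∃ (c : ℕ) (g : ℕ → H), ν (g 0) < ε ∧
    ∀ j : ℕ, g j ≠ 1 ∧ ν (g (j + 1)) ≤ 2 * ε * ν (g j) ∧ g j ∈ S ^ (c * 2 ^ j)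

/-- **GRO** (hypothesis SEQ; near identity elements give superpolynomial growth). PROOF. Let
`A = 2^(d+1)`, `ε = 1/(32 A)`, `c`, `g` from SEQ; `ν(g_j) > 0` by the last hypothesis and
`ν(g_j) < ε` for all `j`. CLAIM: the `A^m` products `∏_{j<m} g_j^(a_j)`, `0 ≤ a_j < A` (in this
order), are distinct. Otherwise let `i` be the first index where `(a_j) ≠ (b_j)`, say `a_i > b_i`;
cancelling the common left part, `g_i^(a_i - b_i) = w' w⁻¹` with `w, w'` products of `g_j^(e_j)`,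
`j > i`, so `ν(g_i^(a_i - b_i)) ≤ 2 ∑_{j>i} A ν(g_j) ≤ 2 A ν(g_i) ∑_{t ≥ 1} (2ε)^t ≤ 8 A ε ν(g_i)
= ν(g_i)/4` (as `2ε ≤ 1/2`), while by `pow` with `a = a_i - b_i`, `1 ≤ a < A`:
`ν(g_i^a) ≥ a ν(g_i) (1 - a ν(g_i)) ≥ ν(g_i) (1 - A ε) > ν(g_i)/4`. (Convenient formulation by
induction on `m` for the shifted sequence: the map `(a_0, ..., a_(m-1)) ↦ ∏ g_(i+j)^(a_j)` is
injective and `ν` of each such product is at most `∑ A ν(g_(i+j)) ≤ 2 A ν(g_i)`.)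
The products lie in `S ^ (∑_{j<m} A c 2^j) ⊆ S ^ (A c 2^m)`. So `|S ^ (A c 2^m)| ≥ A^m
= (2^m)^(d+1)` for all `m`. For `n ≥ A c` (we may assume `c ≥ 1`) choose `m` with
`A c 2^m ≤ n < A c 2^(m+1)`: `|S ^ n| ≥ (n/(2 A c))^(d+1)`, which is greater than `C n^d` for
large `n`. -/
def GRO : Prop := ∀ S : Finset H, Gen S → Infinite H → FF H → FC H → ∀ ν : H → ℝ, NearId ν →
  (∀ g : H, ν g = 0 → g = 1) → ∀ C d : ℕ, ∀ᶠ n : ℕ in atTop, C * n ^ d < (S ^ n).card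

/-- **FIN** (hypotheses FDM, HAA, HAB, REP, GRO). PROOF. Suppose `PolyGrowth S`. FDM and REP give
`ν`; HAA and HAB give a harmonic Lipschitz `f ≠ 0`, `f 1 = 0`. Let `K = {g | ν g = 0}`, a normal
subgroup. If `K = 1` then GRO contradicts `PolyGrowth S`. If `1 ≠ x ∈ K`: `K` is infinite, since
otherwise the conjugacy class of `x` is finite (contained in `K`), so the centralizer of `x` is of
finite index in the infinite group `H`, so infinite, contradiction to `FC`. So `K` has finite index.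
For `g ∈ K`: `f(g x) = f g + f x` for all `x`, so `f(g^n) = n f(g)`, and as `g` has finite order
`f(g) = 0`. So `f(g x) = f(x)` for `g ∈ K`: `f` is constant on the right cosets `K x`, so it takes
finitely many values; let `x₀` be a maximum point: `∑_s (f(x₀ s) - f(x₀)) = 0` with all terms
nonpositive, so `f(x₀ s) = f(x₀)`; so the set of maximum points is closed under right
multiplication by `S`, so it is `H`, `f` is constant, `f = f 1 = 0`, contradiction. -/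
def FIN : Prop := ∀ S : Finset H, Gen S → Infinite H → FF H → FC H →
  (∀ g : H, IsOfFinOrder g) → ¬ PolyGrowth S

end Rep

end Pool.Agent.Helper76.GT
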